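import Pool.Agent.H29.Ism.Defs
import Pool.Agent.H25.Zir.TypeAResult

/-!
# The symmetric group is a Bruhat system (module C1 of project ISM)
-/

namespace Pool.Agent.H64.Ism

open Equiv Finset Pool.Agent.H25.Zir Pool.Agent.H29.Ism

variable {n : ℕ}

/-- a cover by a transposition has no middle value -/
theorem no_mid {y : Perm (Fin n)} {a b : Fin n} (hab : a < b) (hy : y a < y b)
    (hl : len (y * swap a b) = len y + 1) :
    ∀ m, a < m → m < b → ¬ (y a < y m ∧ y m < y b) := by
  intro m h1 h2 h3
  have h := len_swap y hab hy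
  have h4 : ∑ c ∈ ((univ : Finset (Fin n)).erase a).erase b,
      ind (a < c ∧ c < b ∧ y a < y c ∧ y c < y b) = 0 := by omega
  have hm : m ∈ ((univ : Finset (Fin n)).erase a).erase b := by
    simp only [mem_erase, mem_univ, and_true]
    exact ⟨h2.ne, h1.ne'⟩
  have h5 := (Finset.sum_eq_zero_iff.mp h4) m hm
  unfold ind at h5
  rw [if_pos ⟨h1, h2, h3.1, h3.2⟩] at h5
  exact absurd h5 one_ne_zero

theorem swap_braid {i j k : Fin n} (hij : i ≠ j) (hik : i ≠ k) (hjk : j ≠ k) :
    swap i j * swap j k * swap i j = swap i k := by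
  ext x
  simp only [Perm.mul_apply, swap_apply_def]
  split_ifs <;> simp_all

theorem swap_braid' {i j k : Fin n} (hij : i ≠ j) (hik : i ≠ k) (hjk : j ≠ k) :
    swap j k * swap i j * swap j k = swap i k := by
  ext x
  simp only [Perm.mul_apply, swap_apply_def]
  split_ifs <;> simp_all

/-- the sorted element of a coset of the symmetric group on three positions -/
theorem exists_sorted (a : Perm (Fin n)) {i j k : Fin n} (hij : i < j) (hjk : j < k) :
    ∃ c : Perm (Fin n), InC i k j c a ∧ c i < c j ∧ c j < c k := by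
  have hik := hij.trans hjk
  have n1 : a i ≠ a j := fun h => hij.ne (a.injective h)
  have n2 : a i ≠ a k := fun h => hik.ne (a.injective h)
  have n3 : a j ≠ a k := fun h => hjk.ne (a.injective h)
  have e1 : ∀ x, x ≠ i → x ≠ k → x ≠ j → swap i j x = x := fun x h1 _ h3 =>
    swap_apply_of_ne_of_ne h1 h3
  have e2 : ∀ x, x ≠ i → x ≠ k → x ≠ j → swap j k x = x := fun x _ h2 h3 =>
    swap_apply_of_ne_of_ne h3 h2
  have e3 : ∀ x, x ≠ i → x ≠ k → x ≠ j → swap i k x = x := fun x h1 h2 _ =>
    swap_apply_of_ne_of_ne h1 h2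
  have s1 : swap i j k = k := swap_apply_of_ne_of_ne hik.ne' hjk.ne'
  have s2 : swap j k i = i := swap_apply_of_ne_of_ne hij.ne hik.ne
  have s3 : swap i k j = j := swap_apply_of_ne_of_ne hij.ne' hjk.ne
  rcases lt_or_gt_of_ne n1 with h1 | h1 <;> rcases lt_or_gt_of_ne n2 with h2 | h2 <;>
    rcases lt_or_gt_of_ne n3 with h3 | h3
  · exact ⟨a, fun _ _ _ _ => rfl, h1, h3⟩
  · -- a i < a k < a j
    refine ⟨a * swap j k, ?_, ?_, ?_⟩
    · intro x h4 h5 h6
      rw [Perm.mul_apply, e2 x h4 h5 h6]
    · rw [Perm.mul_apply, Perm.mul_apply, swap_apply_left, s2]; exact h2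
    · rw [Perm.mul_apply, Perm.mul_apply, swap_apply_left, swap_apply_right]; exact h3
  · exact absurd (h1.trans h3) h2.not_gt
  · -- a k < a i < a j
    refine ⟨a * (swap j k * swap i j), ?_, ?_, ?_⟩
    · intro x h4 h5 h6
      rw [Perm.mul_apply, Perm.mul_apply, e1 x h4 h5 h6, e2 x h4 h5 h6]
    · simp only [Perm.mul_apply, swap_apply_left, swap_apply_right, s2]; exact h2
    · simp only [Perm.mul_apply, swap_apply_right, s2, s1]; exact h1
  · -- a j < a i < a k
    refine ⟨a * swap i j, ?_, ?_, ?_⟩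
    · intro x h4 h5 h6
      rw [Perm.mul_apply, e1 x h4 h5 h6]
    · simp only [Perm.mul_apply, swap_apply_left, swap_apply_right]; exact h1
    · simp only [Perm.mul_apply, swap_apply_right, s1]; exact h2
  · exact absurd (h2.trans h3) h1.not_gt
  · -- a j < a k < a i
    refine ⟨a * (swap i j * swap j k), ?_, ?_, ?_⟩
    · intro x h4 h5 h6
      rw [Perm.mul_apply, Perm.mul_apply, e2 x h4 h5 h6, e1 x h4 h5 h6]
    · simp only [Perm.mul_apply, swap_apply_left, s2, s1]; exact h3
    · simp only [Perm.mul_apply, swap_apply_left, swap_apply_right, s1]; exact h2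
  · -- a k < a j < a i
    refine ⟨a * swap i k, ?_, ?_, ?_⟩
    · intro x h4 h5 h6
      rw [Perm.mul_apply, e3 x h4 h5 h6]
    · simp only [Perm.mul_apply, swap_apply_left, s3]; exact h3
    · simp only [Perm.mul_apply, swap_apply_right, s3]; exact h1

/-- sorting three positions -/
theorem exists_sort {a0 b0 c0 : Fin n} (hab : a0 ≠ b0) (hac : a0 ≠ c0) (hbc : b0 ≠ c0) :
    ∃ i j k : Fin n, i < j ∧ j < k ∧
      ∀ x, (x ≠ i ∧ x ≠ k ∧ x ≠ j) → (x ≠ a0 ∧ x ≠ b0 ∧ x ≠ c0) := by
  rcases lt_or_gt_of_ne hab with h1 | h1 <;> rcases lt_or_gt_of_ne hac with h2 | h2 <;>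
    rcases lt_or_gt_of_ne hbc with h3 | h3
  · exact ⟨a0, b0, c0, h1, h3, fun x h => ⟨h.1, h.2.2, h.2.1⟩⟩
  · exact ⟨a0, c0, b0, h2, h3, fun x h => ⟨h.1, h.2.1, h.2.2⟩⟩
  · exact absurd (h1.trans h3) h2.not_gt
  · exact ⟨c0, a0, b0, h2, h1, fun x h => ⟨h.2.2, h.2.1, h.1⟩⟩
  · exact ⟨b0, a0, c0, h1, h2, fun x h => ⟨h.2.2, h.1, h.2.1⟩⟩
  · exact absurd (h2.trans h3) h1.not_gt
  · exact ⟨b0, c0, a0, h3, h2, fun x h => ⟨h.2.1, h.1, h.2.2⟩⟩
  · exact ⟨c0, b0, a0, h3, h1, fun x h => ⟨h.2.1, h.2.2, h.1⟩⟩

/-- lengths in a coset: the six elements, with parity -/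
theorem six_len {c : Perm (Fin n)} {i j k : Fin n} (hij : i < j) (hjk : j < k)
    (h1 : c i < c j) (h2 : c j < c k) :
    ∃ s1 s2 s3 s4 s5 s6 : ℕ,
      len (c * swap i j) = len c + 1 + 2 * s1 ∧
      len (c * swap j k) = len c + 1 + 2 * s2 ∧
      len (c * (swap i j * swap j k)) = len (c * swap i j) + 1 + 2 * s3 ∧
      len (c * (swap j k * swap i j)) = len (c * swap j k) + 1 + 2 * s4 ∧
      len (c * swap i k) = len (c * (swap i j * swap j k)) + 1 + 2 * s5 ∧
      len (c * swap i k) = len (c * (swap j k * swap i j)) + 1 + 2 * s6 := by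
  have hik := hij.trans hjk
  have s1 : swap i j k = k := swap_apply_of_ne_of_ne hik.ne' hjk.ne'
  have s2 : swap j k i = i := swap_apply_of_ne_of_ne hij.ne hik.ne
  have l1 := len_swap c hij h1
  have l2 := len_swap c hjk h2
  have l3 := len_swap (c * swap i j) hjk (by
    rw [Perm.mul_apply, Perm.mul_apply, swap_apply_right, s1]; exact h1.trans h2)
  have l4 := len_swap (c * swap j k) hij (by
    rw [Perm.mul_apply, Perm.mul_apply, swap_apply_left, s2]; exact h1.trans h2)
  have l5 := len_swap (c * (swap i j * swap j k)) hij (by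
    simp only [Perm.mul_apply, swap_apply_left, s2, s1]; exact h2)
  have l6 := len_swap (c * (swap j k * swap i j)) hjk (by
    simp only [Perm.mul_apply, swap_apply_right, s2, s1]; exact h1)
  rw [mul_assoc] at l3 l4 l5 l6
  rw [swap_braid hij.ne hik.ne hjk.ne] at l5
  rw [swap_braid' hij.ne hik.ne hjk.ne] at l6
  exact ⟨_, _, _, _, _, _, l1, l2, l3, l4, l5, l6⟩

/-- the order in a coset -/
theorem six_le {c : Perm (Fin n)} {i j k : Fin n} (hij : i < j) (hjk : j < k)
    (h1 : c i < c j) (h2 : c j < c k) :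
    Le c (c * swap i j) ∧ Le c (c * swap j k) ∧
      Le (c * (swap i j * swap j k)) (c * swap i k) ∧
      Le (c * (swap j k * swap i j)) (c * swap i k) := by
  have hik := hij.trans hjk
  have s1 : swap i j k = k := swap_apply_of_ne_of_ne hik.ne' hjk.ne'
  have s2 : swap j k i = i := swap_apply_of_ne_of_ne hij.ne hik.ne
  have l5 := le_swap (c * (swap i j * swap j k)) hij (by
    simp only [Perm.mul_apply, swap_apply_left, s2, s1]; exact h2)
  have l6 := le_swap (c * (swap j k * swap i j)) hjk (by
    simp only [Perm.mul_apply, swap_apply_right, s2, s1]; exact h1)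
  rw [mul_assoc] at l5 l6
  rw [swap_braid hij.ne hik.ne hjk.ne] at l5
  rw [swap_braid' hij.ne hik.ne hjk.ne] at l6
  exact ⟨le_swap c hij h1, le_swap c hjk h2, l5, l6⟩

/-- exact lengths in a coset in which `213 → 231` and `132 → 312` are covers -/
theorem six_cov {c : Perm (Fin n)} {i j k : Fin n} (hij : i < j) (hjk : j < k)
    (h1 : c i < c j) (h2 : c j < c k)
    (g1 : len (c * (swap i j * swap j k)) = len (c * swap i j) + 1)
    (g2 : len (c * (swap j k * swap i j)) = len (c * swap j k) + 1) :
    len (c * swap i j) = len c + 1 ∧ len (c * swap j k) = len c + 1 ∧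
      len (c * (swap i j * swap j k)) = len c + 2 ∧
      len (c * (swap j k * swap i j)) = len c + 2 ∧ len (c * swap i k) = len c + 3 := by
  have hik := hij.trans hjk
  have s1 : swap i j k = k := swap_apply_of_ne_of_ne hik.ne' hjk.ne'
  have s2 : swap j k i = i := swap_apply_of_ne_of_ne hij.ne hik.ne
  have m1 := no_mid (y := c * swap i j) hjk (by
    rw [Perm.mul_apply, Perm.mul_apply, swap_apply_right, s1]; exact h1.trans h2)
    (by rw [mul_assoc]; exact g1)
  have m2 := no_mid (y := c * swap j k) hij (by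
    rw [Perm.mul_apply, Perm.mul_apply, swap_apply_left, s2]; exact h1.trans h2)
    (by rw [mul_assoc]; exact g2)
  rw [Perm.mul_apply, Perm.mul_apply, swap_apply_right, s1] at m1
  rw [Perm.mul_apply, Perm.mul_apply, swap_apply_left, s2] at m2
  have k1 : ∀ m, j < m → m < k → ¬ (c i < c m ∧ c m < c k) := by
    intro m h3 h4 h5
    apply m1 m h3 h4
    rw [Perm.mul_apply, swap_apply_of_ne_of_ne (hij.trans h3).ne' h3.ne']
    exact h5
  have k2 : ∀ m, i < m → m < j → ¬ (c i < c m ∧ c m < c k) := by
    intro m h3 h4 h5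
    apply m2 m h3 h4
    rw [Perm.mul_apply, swap_apply_of_ne_of_ne h4.ne (h4.trans hjk).ne]
    exact h5
  have l1 := len_swap_cov hij h1 (fun m h3 h4 h5 => k2 m h3 h4 ⟨h5.1, h5.2.trans h2⟩)
  have l2 := len_swap_cov hjk h2 (fun m h3 h4 h5 => k1 m h3 h4 ⟨h1.trans h5.1, h5.2⟩)
  have l5 := len_swap_cov (y := c * (swap i j * swap j k)) hij (by
    simp only [Perm.mul_apply, swap_apply_left, s2, s1]; exact h2) (by
    intro m h3 h4 h5
    simp only [Perm.mul_apply, swap_apply_left, s2, s1] at h5
    rw [swap_apply_of_ne_of_ne h4.ne (h4.trans hjk).ne, swap_apply_of_ne_of_ne h3.ne' h4.ne] at h5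
    exact k2 m h3 h4 ⟨h1.trans h5.1, h5.2⟩)
  rw [mul_assoc, swap_braid hij.ne hik.ne hjk.ne] at l5
  exact ⟨l1, l2, by omega, by omega, by omega⟩

theorem inC_six {c g : Perm (Fin n)} {i j k : Fin n} (hij : i < j) (hjk : j < k)
    (h : InC i k j c g) :
    g = c ∨ g = c * (swap i j * swap j k) ∨ g = c * (swap j k * swap i j) ∨
    g = c * swap i j ∨ g = c * swap j k ∨ g = c * swap i k := by
  have hik := hij.trans hjk
  have h1 := six (g := c⁻¹ * g) hik.ne hij.ne hjk.ne' (by
    intro x h1 h2 h3
    rw [Perm.mul_apply, h x h1 h2 h3]; exact c.symm_apply_apply x)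
  have h2 : g = c * (c⁻¹ * g) := by group
  rcases h1 with h1 | h1 | h1 | h1 | h1 | h1 <;> rw [h1] at h2
  · left; rw [h2, mul_one]
  · right; left; exact h2
  · right; right; left; exact h2
  · right; right; right; left; exact h2
  · right; right; right; right; left; exact h2
  · right; right; right; right; right; exact h2

theorem jn_of_cov {x y : Perm (Fin n)} (h : Le x y) (hl : len y = len x + 1) : Jn x y :=
  (cov_of_len h hl).jn

/-- (C1a) axiom `hex` for the symmetric group -/
theorem hex_sym {a b x y : Perm (Fin n)} (hab : a ≠ b) (hxy : x ≠ y) (h1 : Le a x) (h2 : Le a y)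
    (h3 : Le b x) (h4 : Le b y) (l1 : len x = len a + 1) (l2 : len y = len a + 1)
    (l3 : len b = len a) :
    ∃ c r q : Perm (Fin n), r * r = 1 ∧ q * q = 1 ∧ r * q * r = q * r * q ∧ a = c * r ∧ b = c * q ∧
      ((x = c * r * q ∧ y = c * q * r) ∨ (x = c * q * r ∧ y = c * r * q)) ∧
      len a = len c + 1 ∧ Le c a ∧ Le c b ∧
      len (c * r * q * r) = len x + 1 ∧ Le x (c * r * q * r) ∧ Le y (c * r * q * r) ∧
      (∀ v, Le v a → Le v b → len a = len v + 1 → v = c) ∧
      (∀ v, Le x v → Le y v → len v = len x + 1 → v = c * r * q * r) := by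
  have ax := jn_of_cov h1 l1
  have ay := jn_of_cov h2 l2
  have bx := jn_of_cov h3 (by omega)
  have bY := jn_of_cov h4 (by omega)
  have main : ∃ i j k : Fin n, i < j ∧ j < k ∧ InC i k j a b ∧ InC i k j a x ∧ InC i k j a y := by
    rcases two_step hab ax bx with ⟨e, f, g, h, hef, heg, heh, hfg, hfh, hgh, hq⟩ |
      ⟨e, f, g, hef, heg, hfg, hq⟩
    · exfalso
      have fact : ∀ r, Jn a r → Jn b r → r = a * swap e f ∨ r = a * swap g h := by
        rintro r ⟨e', f', hef', e1⟩ ⟨g', h', hgh', e2⟩
        have e3 : b = a * (swap e' f' * swap g' h') := by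
          have : b = r * swap g' h' := by rw [e2, mul_assoc, swap_mul_self, mul_one]
          rw [this, e1, mul_assoc]
        rw [hq] at e3
        rcases F1 hef heg heh hfg hfh hgh (mul_left_cancel e3) with h | h
        · left; rw [e1, h.1]
        · right; rw [e1, h.1]
      have sef : ∀ {e f g h : Fin n}, e ≠ f → e ≠ g → e ≠ h → f ≠ g → f ≠ h → g ≠ h →
          len (a * swap e f) = len a + 1 → len (a * swap g h) = len a + 1 →
          len (a * (swap e f * swap g h)) = len a → False := by
        intro e f g h hef heg heh hfg hfh hgh q1 q2 q3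
        have w1 : ∀ {g h : Fin n}, e ≠ g → e ≠ h → f ≠ g → f ≠ h → g < h →
            len (a * swap g h) = len a + 1 →
            len (a * (swap e f * swap g h)) = len a → False := by
          intro g h heg heh hfg hfh hlt q2 q3
          have w2 : a g < a h := lt_of_len_lt hlt (by omega)
          have w3 := len_swap_lt (y := a * swap e f) hlt (by
            rw [Perm.mul_apply, Perm.mul_apply, swap_apply_of_ne_of_ne heg.symm hfg.symm,
              swap_apply_of_ne_of_ne heh.symm hfh.symm]
            exact w2)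
          rw [mul_assoc] at w3
          omega
        rcases lt_or_gt_of_ne hgh with hlt | hlt
        · exact w1 heg heh hfg hfh hlt q2 q3
        · rw [swap_comm g h] at q2 q3
          exact w1 heh heg hfh hfg hlt q2 q3
      rcases fact x ax bx with t1 | t1 <;> rcases fact y ay bY with t2 | t2
      · exact hxy (t1.trans t2.symm)
      · rw [t1] at l1; rw [t2] at l2; rw [hq] at l3
        exact sef hef heg heh hfg hfh hgh l1 l2 l3
      · rw [t1] at l1; rw [t2] at l2; rw [hq] at l3
        exact sef hef heg heh hfg hfh hgh l2 l1 l3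
      · exact hxy (t1.trans t2.symm)
    · have i1 : InC e f g a b := by
        rw [hq]
        intro x h1 h2 h3
        rw [Perm.mul_apply, Perm.mul_apply, swap_apply_of_ne_of_ne h3 h2,
          swap_apply_of_ne_of_ne h1 h3]
      have i2 := coset_closed hef heg hfg i1 hab ax bx
      have i3 := coset_closed hef heg hfg i1 hab ay bY
      obtain ⟨i, j, k, hij, hjk, hs⟩ := exists_sort hef heg hfg
      have conv : ∀ {p q : Perm (Fin n)}, InC e f g p q → InC i k j p q := by
        intro p q hpq x h1 h2 h3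
        obtain ⟨h4, h5, h6⟩ := hs x ⟨h1, h2, h3⟩
        exact hpq x h4 h5 h6
      exact ⟨i, j, k, hij, hjk, conv i1, conv i2, conv i3⟩
  obtain ⟨i, j, k, hij, hjk, ib, ix, iy⟩ := main
  have hik := hij.trans hjk
  obtain ⟨c, ia, c1, c2⟩ := exists_sorted a hij hjk
  obtain ⟨s1, s2, s3, s4, s5, s6, t1, t2, t3, t4, t5, t6⟩ := six_len hij hjk c1 c2
  obtain ⟨u1, u2, u3, u4⟩ := six_le hij hjk c1 c2
  have br := swap_braid hij.ne hik.ne hjk.ne
  have br' := swap_braid' hij.ne hik.ne hjk.ne
  have A := inC_six hij hjk ia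
  have Bm := inC_six hij hjk (ia.trans ib)
  have X := inC_six hij hjk (ia.trans ix)
  have Y := inC_six hij hjk (ia.trans iy)
  have T1 : ∀ {p q : Perm (Fin n)}, p = q → len p = len q := fun h => by rw [h]
  have AB : (a = c * swap i j ∧ b = c * swap j k) ∨ (a = c * swap j k ∧ b = c * swap i j) := by
    rcases A with A | A | A | A | A | A <;> rcases Bm with B | B | B | B | B | B <;>
    first
      | exact Or.inl ⟨A, B⟩
      | exact Or.inr ⟨A, B⟩
      | exact absurd (A.trans B.symm) hab
      | (exfalso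
         have := T1 A
         have := T1 B
         omega)
      | (exfalso
         apply hxy
         have qa := T1 A
         have qb := T1 B
         rcases X with X | X | X | X | X | X <;> rcases Y with Y | Y | Y | Y | Y | Y <;>
         first
           | exact X.trans Y.symm
           | (exfalso
              have := T1 X
              have := T1 Y
              omega))
  have XY : (x = c * (swap i j * swap j k) ∧ y = c * (swap j k * swap i j)) ∨
      (x = c * (swap j k * swap i j) ∧ y = c * (swap i j * swap j k)) := by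
    have qa : len a = len (c * swap i j) := by
      rcases AB with ⟨h, h'⟩ | ⟨h, h'⟩
      · rw [h]
      · rw [← h', l3]
    have qb : len a = len (c * swap j k) := by
      rcases AB with ⟨h, h'⟩ | ⟨h, h'⟩
      · rw [← h', l3]
      · rw [h]
    rcases X with X | X | X | X | X | X <;> rcases Y with Y | Y | Y | Y | Y | Y <;>
    first
      | exact Or.inl ⟨X, Y⟩
      | exact Or.inr ⟨X, Y⟩
      | exact absurd (X.trans Y.symm) hxy
      | (exfalso
         have := T1 X
         have := T1 Y
         omega)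
  have qa : len a = len (c * swap i j) := by
    rcases AB with ⟨h, h'⟩ | ⟨h, h'⟩
    · rw [h]
    · rw [← h', l3]
  have qb : len a = len (c * swap j k) := by
    rcases AB with ⟨h, h'⟩ | ⟨h, h'⟩
    · rw [← h', l3]
    · rw [h]
  have qx : len x = len (c * (swap i j * swap j k)) := by
    rcases XY with ⟨h, h'⟩ | ⟨h, h'⟩
    · rw [h]
    · rw [← h', l1, l2]
  have qy : len x = len (c * (swap j k * swap i j)) := by
    rcases XY with ⟨h, h'⟩ | ⟨h, h'⟩
    · rw [← h', l1, l2]
    · rw [h]
  obtain ⟨v1, v2, v3, v4, v5⟩ := six_cov hij hjk c1 c2 (by omega) (by omega)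
  -- uniqueness
  have uniq1 : ∀ v, Le v a → Le v b → len a = len v + 1 → v = c := by
    intro v ha hb hl
    have j1 := (jn_of_cov ha hl).symm
    have j2 := (jn_of_cov hb (by omega)).symm
    have V := inC_six hij hjk (ia.trans (coset_closed hik.ne hij.ne hjk.ne' ib hab j1 j2))
    rcases V with V | V | V | V | V | V
    · exact V
    all_goals
      exfalso
      have := T1 V
      omega
  have uniq2 : ∀ v, Le x v → Le y v → len v = len x + 1 → v = c * swap i k := by
    intro v ha hb hl
    have j1 := jn_of_cov ha hl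
    have j2 := jn_of_cov hb (by omega)
    have V := inC_six hij hjk ((ia.trans ix).trans
      (coset_closed hik.ne hij.ne hjk.ne' (ix.symm.trans iy) hxy j1 j2))
    rcases V with V | V | V | V | V | V
    · exfalso
      have := T1 V
      omega
    · exfalso
      have := T1 V
      omega
    · exfalso
      have := T1 V
      omega
    · exfalso
      have := T1 V
      omega
    · exfalso
      have := T1 V
      omega
    · exact V
  have e1 : c * swap i j * swap j k * swap i j = c * swap i k := by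
    rw [mul_assoc, mul_assoc, ← mul_assoc (swap i j), br]
  have e2 : c * swap j k * swap i j * swap j k = c * swap i k := by
    rw [mul_assoc, mul_assoc, ← mul_assoc (swap j k), br']
  have lca : Le c a ∧ Le c b := by
    rcases AB with ⟨h, h'⟩ | ⟨h, h'⟩
    · rw [h, h']; exact ⟨u1, u2⟩
    · rw [h, h']; exact ⟨u2, u1⟩
  have lxt : Le x (c * swap i k) ∧ Le y (c * swap i k) := by
    rcases XY with ⟨h, h'⟩ | ⟨h, h'⟩
    · rw [h, h']; exact ⟨u3, u4⟩
    · rw [h, h']; exact ⟨u4, u3⟩
  have XY' : (x = c * swap i j * swap j k ∧ y = c * swap j k * swap i j) ∨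
      (x = c * swap j k * swap i j ∧ y = c * swap i j * swap j k) := by
    simpa only [mul_assoc] using XY
  rcases AB with ⟨h, h'⟩ | ⟨h, h'⟩
  · refine ⟨c, swap i j, swap j k, swap_mul_self _ _, swap_mul_self _ _, by rw [br, br'], h, h',
      XY', by omega, lca.1, lca.2, ?_, ?_, ?_, uniq1, ?_⟩
    · rw [e1]; omega
    · rw [e1]; exact lxt.1
    · rw [e1]; exact lxt.2
    · rw [e1]; exact uniq2
  · refine ⟨c, swap j k, swap i j, swap_mul_self _ _, swap_mul_self _ _, by rw [br, br'], h, h',
      XY'.symm, by omega, lca.1, lca.2, ?_, ?_, ?_, uniq1, ?_⟩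
    · rw [e2]; omega
    · rw [e2]; exact lxt.1
    · rw [e2]; exact lxt.2
    · rw [e2]; exact uniq2

theorem adj_len_down {x : Perm (Fin n)} {i j : Fin n} (hij : (j : ℕ) = i + 1)
    (h : len (x * swap i j) < len x) : x j < x i := by
  have hlt : i < j := by rw [Fin.lt_def]; omega
  have hne : x i ≠ x j := fun hh => hlt.ne (x.injective hh)
  rcases lt_or_gt_of_ne hne with h1 | h1
  · have := len_swap_adj hij h1
    omega
  · exact h1

theorem adj_len_up {x : Perm (Fin n)} {i j : Fin n} (hij : (j : ℕ) = i + 1)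
    (h : len x < len (x * swap i j)) : x i < x j := by
  have hlt : i < j := by rw [Fin.lt_def]; omega
  have hne : x i ≠ x j := fun hh => hlt.ne (x.injective hh)
  rcases lt_or_gt_of_ne hne with h1 | h1
  · exact h1
  · have := len_swap_adj' hij h1
    omega

theorem adj_le_down {x : Perm (Fin n)} {i j : Fin n} (hij : (j : ℕ) = i + 1)
    (h : x j < x i) : Le (x * swap i j) x := by
  have hlt : i < j := by rw [Fin.lt_def]; omega
  have h1 := le_swap (x * swap i j) hlt (by
    simpa only [Perm.mul_apply, swap_apply_left, swap_apply_right] using h)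
  rwa [mul_assoc, swap_mul_self, mul_one] at h1

/-- (C1) the Bruhat system of the symmetric group on `Fin n` -/
def symB (n : ℕ) : BSys (Perm (Fin n)) where
  S := {s | ∃ i j : Fin n, (j : ℕ) = i + 1 ∧ s = swap i j}
  len := len
  Le := Le
  refl := Le.refl
  trans := Le.trans
  len_lt := fun h hne => len_lt h hne
  up := by
    intro x y h hne
    obtain ⟨z, h1, h2⟩ := exists_cov_up h hne
    exact ⟨z, h1.1, h2, Cov.len h1⟩
  down := by
    intro x y h hne
    obtain ⟨z, h1, h2⟩ := exists_cov_down h hne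
    exact ⟨z, h1, h2.1, Cov.len h2⟩
  sq := by
    rintro s ⟨i, j, -, rfl⟩
    exact swap_mul_self i j
  desc := by
    intro x y h hne
    have h1 := len_lt h hne
    obtain ⟨i, j, hij, h2⟩ := Two.exists_descent (q := y) (by omega)
    refine ⟨swap i j, ⟨i, j, hij, rfl⟩, ?_⟩
    have := len_swap_adj' hij h2
    omega
  s_len := by
    rintro s ⟨i, j, hij, rfl⟩ x
    have hlt : i < j := by rw [Fin.lt_def]; omega
    have hne : x i ≠ x j := fun hh => hlt.ne (x.injective hh)
    rcases lt_or_gt_of_ne hne with h1 | h1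
    · exact Or.inl ⟨len_swap_adj hij h1, le_swap x hlt h1⟩
    · exact Or.inr ⟨len_swap_adj' hij h1, adj_le_down hij h1⟩
  lift_dd := by
    rintro s x y ⟨i, j, hij, rfl⟩ h hy hx
    exact Two.lift_both' h hij (adj_len_down hij hx) (adj_len_down hij hy)
  lift_ud := by
    rintro s x y ⟨i, j, hij, rfl⟩ h hy hx
    have := Two.lift_up h hij (adj_len_up hij hx) (adj_len_down hij hy)
    exact ⟨this.2, this.1⟩
  diamond := fun h hl => two_middles h hl
  hex := fun hab hxy h1 h2 h3 h4 l1 l2 l3 => hex_sym hab hxy h1 h2 h3 h4 l1 l2 l3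


end Pool.Agent.H64.Ism
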